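import Pool.Agent.TD.Affine

set_option autoImplicit false

namespace Pool.Agent.TD

open Function

/-- The class of torsion groups without elements of order `r`, `r` prime. -/
def avoid (r : ℕ) (hr : r.Prime) : GClass where
  P := fun G _ => ∀ g : G, ∃ n : ℕ, ¬ r ∣ n ∧ g ^ n = 1
  surj := by
    intro G H _ _ f hf h x
    obtain ⟨g, rfl⟩ := hf x
    obtain ⟨n, hn, hg⟩ := h g
    exact ⟨n, hn, by rw [← map_pow, hg, map_one]⟩
  ext := by
    intro G H _ _ f hk h g
    obtain ⟨n, hn, hg⟩ := h (f g)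
    have h1 : g ^ n ∈ f.ker := by rw [MonoidHom.mem_ker, map_pow, hg]
    obtain ⟨m, hm, hg'⟩ := hk ⟨g ^ n, h1⟩
    refine ⟨n * m, ?_, ?_⟩
    · intro hd
      rcases hr.dvd_mul.1 hd with h | h
      · exact hn h
      · exact hm h
    · have := congrArg Subtype.val hg'
      simpa [pow_mul] using this
  lim := by
    intro G _ h g
    obtain ⟨U, hU, hP⟩ := h {g}
    obtain ⟨n, hn, hg⟩ := hP ⟨g, hU g (by simp)⟩
    exact ⟨n, hn, congrArg Subtype.val hg⟩
  triv := fun _ => ⟨1, fun h => hr.one_lt.ne' (Nat.dvd_one.1 h), rfl⟩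

theorem avoid_of_card (r : ℕ) (hr : r.Prime) (G : Type) [Group G] [Finite G]
    (h : ¬ r ∣ Nat.card G) : (avoid r hr).P G :=
  fun _ => ⟨Nat.card G, h, pow_card_eq_one'⟩

open Fin.NatCast Fin.CommRing in
/-- A torsion group without elements of order `r` has no `r`-transitive action. -/
theorem not_trans (r : ℕ) (hr : r.Prime) (G : Type) [Group G] (h : (avoid r hr).P G) (X : Type)
    [MulAction G X] (x : Fin r ↪ X) : ¬ ∀ x y : Fin r ↪ X, ∃ g : G, ∀ i, g • x i = y i := by
  intro H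
  have : NeZero r := ⟨hr.ne_zero⟩
  let y : Fin r ↪ X := (Equiv.addRight (1 : Fin r)).toEmbedding.trans x
  obtain ⟨g, hg⟩ := H x y
  have hg' : ∀ i, g • x i = x (i + 1) := hg
  have hn : ∀ (n : ℕ) (i : Fin r), g ^ n • x i = x (i + (n : Fin r)) := by
    intro n
    induction n with
    | zero => intro i; simp
    | succ n ih =>
      intro i
      rw [pow_succ', mul_smul, ih, hg']
      congr 1
      push_cast
      rw [add_assoc]
  obtain ⟨n, h1, h2⟩ := h g
  have h3 := hn n 0
  rw [h2, one_smul, zero_add] at h3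
  have h4 := x.injective h3
  apply h1
  rw [← Nat.modEq_zero_iff_dvd]
  have h5 := congrArg Fin.val h4
  rw [Fin.val_natCast] at h5
  have h6 : ((0 : Fin r) : ℕ) = 0 := by simp
  rw [h6] at h5
  exact h5.symm

/-- `r` does not divide the order of `GL(m,p)` if `p` is a primitive root mod `r`, `m + 1 < r`. -/
theorem not_dvd_card_GL (r : ℕ) (hr : r.Prime) (m : ℕ) (hm : m + 1 < r) (p : ℕ) [hp : Fact p.Prime]
    (hpr : orderOf (p : ZMod r) = r - 1) : ¬ r ∣ Nat.card (GL (Fin m) (ZMod p)) := by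
  have : Fact r.Prime := ⟨hr⟩
  rw [Matrix.card_GL_field, hr.prime.dvd_finsetProd_iff]
  rintro ⟨i, -, hi⟩
  rw [ZMod.card] at hi
  have hi' := i.2
  have h0 : (p : ZMod r) ≠ 0 := by
    intro h0
    rw [h0] at hpr
    have : orderOf (0 : ZMod r) = 0 := by
      rw [orderOf_eq_zero_iff']
      intro n hn h
      rw [zero_pow hn.ne'] at h
      exact zero_ne_one h
    rw [this] at hpr
    omega
  have h1 : p ^ m - p ^ (i : ℕ) = p ^ (i : ℕ) * (p ^ (m - i) - 1) := by
    rw [Nat.mul_sub, ← pow_add, mul_one]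
    congr 2
    omega
  rw [h1] at hi
  rcases hr.dvd_mul.1 hi with h | h
  · have := hr.dvd_of_dvd_pow h
    exact h0 ((ZMod.natCast_eq_zero_iff _ _).2 this)
  · have h2 : 1 ≤ p ^ (m - (i : ℕ)) := Nat.one_le_pow _ _ hp.out.pos
    have h3 : (p : ZMod r) ^ (m - (i : ℕ)) = 1 := by
      have := (ZMod.natCast_eq_zero_iff _ _).2 h
      rw [Nat.cast_sub h2] at this
      push_cast at this
      exact sub_eq_zero.1 this
    have h4 := orderOf_dvd_of_pow_eq_one h3
    rw [hpr] at h4
    have h5 := Nat.le_of_dvd (by omega) h4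
    omega

theorem exists_prime (r : ℕ) (hr : r.Prime) (n : ℕ) :
    ∃ p : ℕ, n < p ∧ p.Prime ∧ orderOf (p : ZMod r) = r - 1 := by
  have : Fact r.Prime := ⟨hr⟩
  obtain ⟨a, ha⟩ := IsCyclic.exists_generator (α := (ZMod r)ˣ)
  have h1 : orderOf a = r - 1 := by
    rw [orderOf_eq_card_of_forall_mem_zpowers ha, Nat.card_eq_fintype_card,
      ZMod.card_units_eq_totient, Nat.totient_prime hr]
  obtain ⟨p, hp1, hp2, hp3⟩ := Nat.forall_exists_prime_gt_and_eq_mod (q := r) (a := (a : ZMod r))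
    a.isUnit n
  exact ⟨p, hp1, hp2, by rw [hp3, orderOf_units, h1]⟩

theorem local_avoid (r : ℕ) (hr : r.Prime) (m : ℕ) (hm : 1 ≤ m) (hmr : m + 2 = r) :
    Local (avoid r hr) (m + 1) := by
  refine local_of_affine _ m hm ?_
  intro n
  obtain ⟨p, hp1, hp2, hp3⟩ := exists_prime r hr (max n r)
  have : Fact p.Prime := ⟨hp2⟩
  refine ⟨ZMod p, inferInstance, inferInstance, ?_, ?_⟩
  · rw [Nat.card_zmod]
    omega
  · refine aff_class _ _ _ ?_ ?_
    · exact avoid_of_card r hr _ (not_dvd_card_GL r hr m (by omega) p hp3)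
    · intro v
      refine ⟨p, ?_, ?_⟩
      · intro h
        have := (Nat.prime_dvd_prime_iff_eq hr hp2).1 h
        omega
      · apply Multiplicative.toAdd.injective
        rw [toAdd_pow]
        funext i
        simp

end Pool.Agent.TD
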