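import Pool.Agent.TD.Limit

set_option autoImplicit false

namespace Pool.Agent.TD

open Function

/-- The affine group is transitive on ordered affine frames. -/
theorem affine_trans (F : Type) [Field F] (m : ℕ) (x y : Fin (m + 1) → (Fin m → F))
    (hx : AffineIndependent F x) (hy : AffineIndependent F y) :
    ∃ g : (Fin m → F) ≃ᵃ[F] (Fin m → F), ∀ i, g (x i) = y i := by
  have hcard : Fintype.card (Fin (m + 1)) = Module.finrank F (Fin m → F) + 1 := by simp
  let bx : AffineBasis (Fin (m + 1)) F (Fin m → F) :=
    ⟨x, hx, (hx.affineSpan_eq_top_iff_card_eq_finrank_add_one).2 hcard⟩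
  let bY : AffineBasis (Fin (m + 1)) F (Fin m → F) :=
    ⟨y, hy, (hy.affineSpan_eq_top_iff_card_eq_finrank_add_one).2 hcard⟩
  let L : (Fin m → F) ≃ₗ[F] (Fin m → F) :=
    (bx.basisOf 0).equiv (bY.basisOf 0) (Equiv.refl _)
  refine ⟨((AffineEquiv.vaddConst F (x 0)).symm.trans L.toAffineEquiv).trans
    (AffineEquiv.vaddConst F (y 0)), fun i => ?_⟩
  change L (x i - x 0) + y 0 = y i
  by_cases hi : i = 0
  · subst hi; simp
  · have h1 : x i - x 0 = bx.basisOf 0 ⟨i, hi⟩ := by
      rw [AffineBasis.basisOf_apply]; rfl
    have h2 : y i - y 0 = bY.basisOf 0 ⟨i, hi⟩ := by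
      rw [AffineBasis.basisOf_apply]; rfl
    have h3 : L (x i - x 0) = y i - y 0 := by
      rw [h1, h2]
      exact Module.Basis.equiv_apply _ _ _ _
    rw [h3]; simp

/-- The moment curve without the constant coordinate. -/
def moment (F : Type) [Field F] (m : ℕ) (t : F) : Fin m → F := fun i => t ^ ((i : ℕ) + 1)

theorem moment_indep (F : Type) [Field F] (m : ℕ) (t : Fin (m + 1) → F) (ht : Injective t) :
    AffineIndependent F (fun i => moment F m (t i)) := by
  rw [affineIndependent_iff_of_fintype]
  intro w hw hs
  rw [Finset.univ.weightedVSub_eq_linear_combination hw] at hs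
  have h : w = 0 := by
    refine Matrix.eq_zero_of_forall_pow_sum_mul_pow_eq_zero (f := t) ht ?_
    intro i
    refine Fin.cases ?_ (fun i => ?_) i
    · simpa using hw
    · have := congrFun hs i
      simpa [moment] using this
  intro i
  rw [h]; rfl

theorem moment_injective (F : Type) [Field F] (m : ℕ) (hm : 1 ≤ m) : Injective (moment F m) := by
  intro a b h
  have := congrFun h ⟨0, hm⟩
  simpa [moment] using this

instance affFinite (F : Type) [Field F] [Finite F] (m : ℕ) :
    Finite ((Fin m → F) ≃ᵃ[F] (Fin m → F)) :=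
  Finite.of_injective (fun g => (g : (Fin m → F) → (Fin m → F))) DFunLike.coe_injective

/-- The affine group of dimension `m` acts `m+1`-transitively on the moment curve. -/
theorem affine_moment (F : Type) [Field F] (m : ℕ) (n : ℕ)
    (e : Fin n ↪ F) (x y : Fin (m + 1) ↪ Fin n) :
    ∃ g : (Fin m → F) ≃ᵃ[F] (Fin m → F), ∀ i, g (moment F m (e (x i))) = moment F m (e (y i)) :=
  affine_trans F m _ _ (moment_indep F m (fun i => e (x i)) (e.injective.comp x.injective))
    (moment_indep F m (fun i => e (y i)) (e.injective.comp y.injective))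

/-- If the class contains affine groups `AGL(m,F)` over finite fields `F` of unbounded size, then it
satisfies the local hypothesis for `k = m + 1`. -/
theorem local_of_affine (C : GClass) (m : ℕ) (hm : 1 ≤ m)
    (h : ∀ n : ℕ, ∃ (F : Type) (_ : Field F) (_ : Finite F), n ≤ Nat.card F ∧
      C.P ((Fin m → F) ≃ᵃ[F] (Fin m → F))) : Local C (m + 1) := by
  intro n
  obtain ⟨F, iF, fF, hn, hP⟩ := h n
  have e : Fin n ↪ F := (Fin.castLEEmb hn).trans (Finite.equivFin F).symm.toEmbedding
  refine ⟨(Fin m → F) ≃ᵃ[F] (Fin m → F), inferInstance, Fin m → F,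
    { smul := fun g v => g v, one_smul := fun _ => rfl, mul_smul := fun _ _ _ => rfl },
    inferInstance, inferInstance, hP, ⟨fun i => moment F m (e i), (moment_injective F m hm).comp e.injective⟩, ?_⟩
  intro x y
  obtain ⟨g, hg⟩ := affine_moment F m n e x y
  exact ⟨g, hg⟩

/-- A class containing the translations and `GL(m,F)` contains the affine group. -/
theorem aff_class (C : GClass) (F : Type) [Field F] (m : ℕ)
    (h1 : C.P (GL (Fin m) F)) (h2 : C.P (Multiplicative (Fin m → F))) :
    C.P ((Fin m → F) ≃ᵃ[F] (Fin m → F)) := by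
  refine C.ext _ _ AffineEquiv.linearHom ?_ ?_
  · let g : Multiplicative (Fin m → F) →* (AffineEquiv.linearHom :
        ((Fin m → F) ≃ᵃ[F] (Fin m → F)) →* _).ker :=
      { toFun := fun v => ⟨AffineEquiv.constVAdd F (Fin m → F) v.toAdd, by
          rw [MonoidHom.mem_ker]
          rfl⟩
        map_one' := by
          apply Subtype.ext
          ext x i
          simp
        map_mul' := fun a b => by
          apply Subtype.ext
          ext x i
          simp }
    refine C.surj _ _ g ?_ h2
    rintro ⟨f, hf⟩
    rw [MonoidHom.mem_ker] at hf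
    refine ⟨Multiplicative.ofAdd (f 0), ?_⟩
    apply Subtype.ext
    apply AffineEquiv.ext
    intro x
    have h3 : f.linear x = x := by
      have : f.linear = 1 := hf
      rw [this]; rfl
    have h4 := f.map_vadd 0 x
    rw [h3] at h4
    simp only [vadd_eq_add, add_zero] at h4
    change f 0 + x = f x
    rw [h4, add_comm]
  · let e1 := Matrix.GeneralLinearGroup.toLin (n := Fin m) (R := F)
    let e2 := LinearMap.GeneralLinearGroup.generalLinearEquiv F (Fin m → F)
    exact C.equiv (e1.trans e2) h1

end Pool.Agent.TD
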