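import Pool.Agent.TD.Tower

set_option autoImplicit false

namespace Pool.Agent.TD

open Function

/-- A class of groups closed under quotients, extensions and directed unions. -/
structure GClass where
  P : ∀ (G : Type) [Group G], Prop
  surj : ∀ (G H : Type) [Group G] [Group H] (f : G →* H), Surjective f → P G → P H
  ext : ∀ (G H : Type) [Group G] [Group H] (f : G →* H), P f.ker → P H → P G
  lim : ∀ (G : Type) [Group G],
    (∀ s : Finset G, ∃ U : Subgroup G, (∀ x ∈ s, x ∈ U) ∧ P U) → P G
  triv : P PUnit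

namespace GClass
variable (C : GClass)

theorem equiv {G H : Type} [Group G] [Group H] (f : G ≃* H) (h : C.P G) : C.P H :=
  C.surj G H f.toMonoidHom f.surjective h

theorem subsing {G : Type} [Group G] [Subsingleton G] : C.P G :=
  C.surj PUnit G (1 : PUnit →* G) (fun _ => ⟨1, Subsingleton.elim _ _⟩) C.triv

theorem pi (K : Type) [Group K] (hK : C.P K) (ι : Type) [Finite ι] : C.P (ι → K) := by
  induction ι using Finite.induction_empty_option with
  | of_equiv e ih =>
    exact C.equiv (MulEquiv.arrowCongr e (MulEquiv.refl K)) ih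
  | h_empty => exact C.subsing
  | h_option ih =>
    rename_i α _
    let f : (Option α → K) →* (α → K) :=
      { toFun := fun u a => u (some a), map_one' := rfl, map_mul' := fun _ _ => rfl }
    refine C.ext _ _ f ?_ ih
    let g : K →* f.ker :=
      { toFun := fun k => ⟨fun o => Option.casesOn o k (fun _ => 1), by
          rw [MonoidHom.mem_ker]; rfl⟩
        map_one' := by
          apply Subtype.ext
          funext o
          cases o <;> rfl
        map_mul' := fun a b => by
          apply Subtype.ext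
          funext o
          cases o
          · rfl
          · simp }
    refine C.surj K _ g ?_ hK
    rintro ⟨u, hu⟩
    refine ⟨u none, ?_⟩
    apply Subtype.ext
    funext o
    cases o with
    | none => rfl
    | some a =>
      rw [MonoidHom.mem_ker] at hu
      have := congrFun hu a
      exact this.symm

end GClass

/-- Left translation of the coordinates. -/
def shiftAut (H K : Type) [Group H] [Group K] : H →* MulAut (H → K) where
  toFun h :=
    { toFun := fun f t => f (h⁻¹ * t)
      invFun := fun f t => f (h * t)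
      left_inv := fun f => by funext t; simp
      right_inv := fun f => by funext t; simp
      map_mul' := fun _ _ => rfl }
  map_one' := by
    ext f t
    simp
  map_mul' := fun a b => by
    ext f t
    simp [mul_assoc]

/-- The regular wreath product. -/
abbrev Wr (H K : Type) [Group H] [Group K] : Type := SemidirectProduct (H → K) H (shiftAut H K)

@[reducible] noncomputable def wrAct (H K Γ : Type) [Group H] [Group K] [MulAction K Γ] :
    MulAction (Wr H K) (H → Γ) where
  smul g u := fun t => g.left t • u (g.right⁻¹ * t)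
  one_smul u := by
    funext t
    change (1 : H → K) t • u ((1 : H)⁻¹ * t) = u t
    simp
  mul_smul a b u := by
    funext t
    change (a.left * (shiftAut H K a.right) b.left) t • u ((a.right * b.right)⁻¹ * t) =
      a.left t • (b.left (a.right⁻¹ * t) • u (b.right⁻¹ * (a.right⁻¹ * t)))
    rw [Pi.mul_apply, mul_smul, mul_inv_rev, mul_assoc]
    rfl

instance wrFinite (H K : Type) [Group H] [Group K] [Finite H] [Finite K] : Finite (Wr H K) :=
  Finite.of_equiv _ (SemidirectProduct.equivProd (φ := shiftAut H K)).symm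

theorem wrClass (C : GClass) (H K : Type) [Group H] [Group K] [Finite H] (hH : C.P H)
    (hK : C.P K) : C.P (Wr H K) := by
  refine C.ext _ _ (SemidirectProduct.rightHom (φ := shiftAut H K)) ?_ hH
  rw [← SemidirectProduct.range_inl_eq_ker_rightHom]
  exact C.surj _ _ (SemidirectProduct.inl (φ := shiftAut H K)).rangeRestrict
    (MonoidHom.rangeRestrict_surjective _) (C.pi K hK H)

/-- The local hypothesis: for every `n` there is a finite action in the class containing an `n`-set
all of whose ordered `k`-tuples are equivalent. -/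
def Local (C : GClass) (k : ℕ) : Prop :=
  ∀ n : ℕ, ∃ (K : Type) (_ : Group K) (Γ : Type) (_ : MulAction K Γ),
    Finite K ∧ Finite Γ ∧ C.P K ∧ ∃ c : Fin n ↪ Γ,
      ∀ x y : Fin k ↪ Fin n, ∃ g : K, ∀ i, g • c (x i) = c (y i)

theorem exists_next (C : GClass) (k : ℕ) (hloc : Local C k) (A : Stage) (hA : C.P A.G) :
    ∃ (B : Stage) (φ : SHom A B), C.P B.G ∧ Nat.card A.O < Nat.card B.O ∧
      ∀ x y : Fin k ↪ A.O, ∃ g : B.G, ∀ i, g • φ.e (x i) = φ.e (y i) := by
  classical
  obtain ⟨K, iK, Γ, iΓ, fK, fΓ, hK, c, hc⟩ := hloc (Nat.card A.O + 1)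
  let emb : A.O ↪ Fin (Nat.card A.O + 1) :=
    (Finite.equivFin A.O).toEmbedding.trans Fin.castSuccEmb
  let d : A.O ↪ Γ := emb.trans c
  have hd : ∀ x y : Fin k ↪ A.O, ∃ g : K, ∀ i, g • d (x i) = d (y i) := by
    intro x y
    obtain ⟨g, hg⟩ := hc (x.trans emb) (y.trans emb)
    exact ⟨g, fun i => hg i⟩
  let B : Stage :=
    { G := Wr A.G K
      O := A.G → Γ
      grp := inferInstance
      act := wrAct A.G K Γ
      finG := inferInstance
      finO := inferInstance }
  let φ : SHom A B :=
    { f := SemidirectProduct.inr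
      e := ⟨fun x t => d (t⁻¹ • x), fun x y h => by
        have := congrFun h 1
        simpa using this⟩
      he := fun g x => by
        funext t
        change d (t⁻¹ • g • x) = (1 : A.G → K) t • d ((g⁻¹ * t)⁻¹ • x)
        rw [Pi.one_apply, one_smul, mul_inv_rev, inv_inv, mul_smul] }
  refine ⟨B, φ, wrClass C _ _ hA hK, ?_, ?_⟩
  · have h1 : Nat.card (Fin (Nat.card A.O + 1)) ≤ Nat.card Γ :=
      Nat.card_le_card_of_injective c c.injective
    have h2 : Nat.card Γ ≤ Nat.card (A.G → Γ) := by
      refine Nat.card_le_card_of_injective (fun γ => fun _ => γ) ?_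
      intro a b h
      exact congrFun h 1
    rw [Nat.card_fin] at h1
    exact lt_of_lt_of_le (Nat.lt_succ_self _) (h1.trans h2)
  · intro x y
    have hs : ∀ t : A.G, ∃ g : K, ∀ i, g • d (t⁻¹ • x i) = d (t⁻¹ • y i) := by
      intro t
      let tt : A.O ↪ A.O := (MulAction.toPerm t⁻¹).toEmbedding
      exact hd (x.trans tt) (y.trans tt)
    choose κ hκ using hs
    refine ⟨(⟨κ, 1⟩ : Wr A.G K), fun i => ?_⟩
    funext t
    change κ t • d ((1⁻¹ * t)⁻¹ • x i) = d (t⁻¹ • y i)
    rw [inv_one, one_mul]
    exact hκ t i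

/-- Stages in the class. -/
def CStage (C : GClass) : Type 1 := {A : Stage // C.P A.G}

noncomputable def nxt (C : GClass) (k : ℕ) (hloc : Local C k) (A : CStage C) : CStage C :=
  ⟨(exists_next C k hloc A.1 A.2).choose,
    (exists_next C k hloc A.1 A.2).choose_spec.choose_spec.1⟩

noncomputable def nxtHom (C : GClass) (k : ℕ) (hloc : Local C k) (A : CStage C) :
    SHom A.1 (nxt C k hloc A).1 :=
  (exists_next C k hloc A.1 A.2).choose_spec.choose

theorem nxt_card (C : GClass) (k : ℕ) (hloc : Local C k) (A : CStage C) :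
    Nat.card A.1.O < Nat.card (nxt C k hloc A).1.O :=
  (exists_next C k hloc A.1 A.2).choose_spec.choose_spec.2.1

theorem nxt_trans (C : GClass) (k : ℕ) (hloc : Local C k) (A : CStage C) :
    ∀ x y : Fin k ↪ A.1.O, ∃ g : (nxt C k hloc A).1.G,
      ∀ i, g • (nxtHom C k hloc A).e (x i) = (nxtHom C k hloc A).e (y i) :=
  (exists_next C k hloc A.1 A.2).choose_spec.choose_spec.2.2

noncomputable def stg0 (C : GClass) : CStage C :=
  ⟨{ G := PUnit
     O := PUnit
     grp := inferInstance
     act := { smul := fun _ x => x, one_smul := fun _ => rfl, mul_smul := fun _ _ _ => rfl }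
     finG := inferInstance
     finO := inferInstance }, C.triv⟩

noncomputable def stg (C : GClass) (k : ℕ) (hloc : Local C k) : ℕ → CStage C
  | 0 => stg0 C
  | (n + 1) => nxt C k hloc (stg C k hloc n)

theorem stg_card (C : GClass) (k : ℕ) (hloc : Local C k) (n : ℕ) :
    n < Nat.card (stg C k hloc n).1.O := by
  induction n with
  | zero =>
    change 0 < Nat.card PUnit
    simp
  | succ n ih => exact lt_of_le_of_lt ih (nxt_card C k hloc _)

theorem exists_limit (C : GClass) (k : ℕ) (hloc : Local C k) :
    ∃ (G : Type) (_ : Group G) (X : Type) (_ : MulAction G X),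
      C.P G ∧ Countable G ∧ Infinite X ∧
      (∀ x y : Fin k ↪ X, ∃ g : G, ∀ i, g • x i = y i) := by
  classical
  let S : ℕ → Stage := fun n => (stg C k hloc n).1
  let st : ∀ n, SHom (S n) (S (n + 1)) := fun n => nxtHom C k hloc (stg C k hloc n)
  have hst : ∀ n, ∀ x y : Fin k ↪ (S n).O, ∃ g : (S (n + 1)).G,
      ∀ i, g • (st n).e (x i) = (st n).e (y i) := fun n => nxt_trans C k hloc _
  have hinj : ∀ i, Injective fun x : OO S i => (⟦⟨i, x⟩⟧ : LO S st) :=
    fun i => DirectLimit.mk_injective (oe S st) (fun i j h => (oe S st i j h).injective) i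
  -- finitely many elements of the limit come from one stage
  have hstage : ∀ (m : ℕ) (u : Fin m → LO S st), ∃ (i : ℕ) (v : Fin m → OO S i),
      ∀ a, u a = ⟦⟨i, v a⟩⟧ := by
    intro m u
    have h1 : ∀ a, ∃ (i : ℕ) (v : OO S i), u a = ⟦⟨i, v⟩⟧ :=
      fun a => DirectLimit.exists_eq_mk _ (u a)
    choose i v hv using h1
    let j : ℕ := Finset.univ.sup i
    have hj : ∀ a, i a ≤ j := fun a => Finset.le_sup (Finset.mem_univ a)
    refine ⟨j, fun a => oe S st (i a) j (hj a) (v a), fun a => ?_⟩
    rw [hv a]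
    exact DirectLimit.eq_of_le ⟨i a, v a⟩ j (hj a)
  have hstageG : ∀ (s : Finset (LG S st)), ∃ (i : ℕ),
      ∀ a ∈ s, ∃ g : GG S i, a = ⟦⟨i, g⟩⟧ := by
    intro s
    induction s using Finset.induction_on with
    | empty => exact ⟨0, by simp⟩
    | insert a s _ ih =>
      obtain ⟨i, hi⟩ := ih
      obtain ⟨j, g, hg⟩ := DirectLimit.exists_eq_mk _ a
      refine ⟨max i j, ?_⟩
      intro b hb
      rcases Finset.mem_insert.1 hb with rfl | hb
      · refine ⟨gf S st j _ (le_max_right i j) g, ?_⟩
        rw [hg]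
        exact DirectLimit.eq_of_le ⟨j, g⟩ _ (le_max_right i j)
      · obtain ⟨g', hg'⟩ := hi b hb
        refine ⟨gf S st i _ (le_max_left i j) g', ?_⟩
        rw [hg']
        exact DirectLimit.eq_of_le ⟨i, g'⟩ _ (le_max_left i j)
  refine ⟨LG S st, inferInstance, LO S st, actL S st, ?_, ?_, ?_, ?_⟩
  · -- class
    refine C.lim _ ?_
    intro s
    obtain ⟨i, hi⟩ := hstageG s
    let emb : GG S i →* LG S st :=
      { toFun := fun g => ⟦⟨i, g⟩⟧
        map_one' := (DirectLimit.one_def i).symm
        map_mul' := fun a b => (DirectLimit.mul_def i a b).symm }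
    refine ⟨emb.range, ?_, ?_⟩
    · intro a ha
      obtain ⟨g, hg⟩ := hi a ha
      exact ⟨g, hg.symm⟩
    · exact C.surj _ _ emb.rangeRestrict emb.rangeRestrict_surjective (stg C k hloc i).2
  · -- countable
    have : Countable (Σ i, GG S i) := inferInstance
    exact Quotient.countable
  · -- infinite
    refine not_finite_iff_infinite.1 ?_
    intro hfin
    have h1 := stg_card C k hloc (Nat.card (LO S st))
    have h2 := Nat.card_le_card_of_injective _ (hinj (Nat.card (LO S st)))
    exact absurd h2 (not_le.2 h1)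
  · intro x y
    obtain ⟨i, v, hv⟩ := hstage (k + k) (Fin.append x y)
    have hx : ∀ a, x a = ⟦⟨i, v (Fin.castAdd k a)⟩⟧ := by
      intro a
      rw [← hv, Fin.append_left]
    have hy : ∀ a, y a = ⟦⟨i, v (Fin.natAdd k a)⟩⟧ := by
      intro a
      rw [← hv, Fin.append_right]
    let x' : Fin k ↪ OO S i := ⟨fun a => v (Fin.castAdd k a), fun a b h => x.injective (by
      rw [hx a, hx b]
      exact congrArg (fun z : OO S i => (⟦⟨i, z⟩⟧ : LO S st)) h)⟩
    let y' : Fin k ↪ OO S i := ⟨fun a => v (Fin.natAdd k a), fun a b h => y.injective (by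
      rw [hy a, hy b]
      exact congrArg (fun z : OO S i => (⟦⟨i, z⟩⟧ : LO S st)) h)⟩
    obtain ⟨g, hg⟩ := hst i x' y'
    refine ⟨⟦⟨i + 1, g⟩⟧, fun a => ?_⟩
    have e1 : ∀ z : OO S i, (⟦⟨i, z⟩⟧ : LO S st) = ⟦⟨i + 1, (st i).e z⟩⟧ := by
      intro z
      have := DirectLimit.eq_of_le (f := oe S st) ⟨i, z⟩ (i + 1) (Nat.le_succ i)
      rw [this]
      congr 2
      change (tr S st i (i + 1) _).e z = _
      rw [tr_succ S st i i le_rfl, tr_self]
      rfl
    rw [hx a, hy a, e1, e1, smul_def]
    congr 2
    exact hg a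

/-- Faithful version: the group acting faithfully, infinite and countable. -/
theorem exists_limit_faithful (C : GClass) (k : ℕ) (hk : 1 ≤ k) (hloc : Local C k) :
    ∃ (G : Type) (_ : Group G), C.P G ∧ Infinite G ∧ Countable G ∧
      ∃ (X : Type) (_ : MulAction G X), Infinite X ∧
      (∀ g : G, (∀ x : X, g • x = x) → g = 1) ∧
      (∀ x y : Fin k ↪ X, ∃ g : G, ∀ i, g • x i = y i) := by
  classical
  obtain ⟨G, iG, X, iX, hP, hc, hX, ht⟩ := exists_limit C k hloc
  let ρ : G →* Equiv.Perm X := MulAction.toPermHom G X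
  have htr : ∀ x y : Fin k ↪ X, ∃ g : ρ.range, ∀ i, g • x i = y i := by
    intro x y
    obtain ⟨g, hg⟩ := ht x y
    exact ⟨⟨ρ g, g, rfl⟩, hg⟩
  refine ⟨ρ.range, inferInstance, ?_, ?_, ?_, X, inferInstance, hX, ?_, htr⟩
  · exact C.surj _ _ ρ.rangeRestrict ρ.rangeRestrict_surjective hP
  · -- infinite
    refine not_finite_iff_infinite.1 ?_
    intro hfin
    have x0 : Fin k ↪ X := Fin.valEmbedding.trans (Infinite.natEmbedding X)
    let a : Fin k := ⟨0, hk⟩
    have : Surjective (fun g : ρ.range => g • x0 a) := by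
      intro z
      obtain ⟨y, hy⟩ : ∃ y : Fin k ↪ X, y a = z := by
        refine ⟨x0.trans (Equiv.swap (x0 a) z).toEmbedding, ?_⟩
        simp
      obtain ⟨g, hg⟩ := htr x0 y
      exact ⟨g, by rw [← hy]; exact hg a⟩
    have := Finite.of_surjective _ this
    exact not_finite X
  · exact Surjective.countable ρ.rangeRestrict_surjective
  · rintro ⟨g, hg⟩ h
    apply Subtype.ext
    ext x
    exact h x

end Pool.Agent.TD
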