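import Mathlib

set_option autoImplicit false

namespace Pool.Agent.TD

open Function

/-- A finite group acting on a finite set. -/
structure Stage where
  G : Type
  O : Type
  grp : Group G
  act : MulAction G O
  finG : Finite G
  finO : Finite O

attribute [instance] Stage.grp Stage.act Stage.finG Stage.finO

/-- A group homomorphism together with an equivariant injection. -/
structure SHom (A B : Stage) where
  f : A.G →* B.G
  e : A.O ↪ B.O
  he : ∀ (g : A.G) (x : A.O), e (g • x) = f g • e x

def SHom.id (A : Stage) : SHom A A where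
  f := MonoidHom.id _
  e := Embedding.refl _
  he := fun _ _ => rfl

def SHom.comp {A B C : Stage} (ψ : SHom B C) (φ : SHom A B) : SHom A C where
  f := ψ.f.comp φ.f
  e := φ.e.trans ψ.e
  he := fun g x => by simp [φ.he, ψ.he]

/-- The transition maps of a sequence. -/
def tr (S : ℕ → Stage) (st : ∀ n, SHom (S n) (S (n + 1))) (i j : ℕ) (h : i ≤ j) :
    SHom (S i) (S j) :=
  Nat.leRecOn (C := fun j => SHom (S i) (S j)) h (fun {k} φ => (st k).comp φ) (SHom.id _)

section
variable (S : ℕ → Stage) (st : ∀ n, SHom (S n) (S (n + 1)))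

theorem tr_self (i : ℕ) (h : i ≤ i) : tr S st i i h = SHom.id _ := by
  unfold tr
  rw [Nat.leRecOn_self]

theorem tr_succ (i j : ℕ) (h : i ≤ j) (h' : i ≤ j + 1) :
    tr S st i (j + 1) h' = (st j).comp (tr S st i j h) := by
  unfold tr
  rw [Nat.leRecOn_succ h]

theorem tr_trans (i j k : ℕ) (hij : i ≤ j) (hjk : j ≤ k) :
    (tr S st j k hjk).comp (tr S st i j hij) = tr S st i k (hij.trans hjk) := by
  induction k, hjk using Nat.le_induction with
  | base => rw [tr_self]; rfl
  | succ k hjk ih =>
    rw [tr_succ S st j k hjk, tr_succ S st i k (hij.trans hjk), ← ih]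
    rfl

abbrev GG (i : ℕ) : Type := (S i).G
abbrev OO (i : ℕ) : Type := (S i).O

abbrev gf (i j : ℕ) (h : i ≤ j) : GG S i →* GG S j := (tr S st i j h).f
abbrev oe (i j : ℕ) (h : i ≤ j) : OO S i ↪ OO S j := (tr S st i j h).e

instance dsG : DirectedSystem (GG S) (fun i j h => ⇑(gf S st i j h)) where
  map_self := fun i x => by
    change (tr S st i i le_rfl).f x = x
    rw [tr_self]; rfl
  map_map := fun k j i hij hjk x => by
    change (tr S st j k hjk).f ((tr S st i j hij).f x) = (tr S st i k (hij.trans hjk)).f x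
    rw [← tr_trans S st i j k hij hjk]; rfl

instance dsO : DirectedSystem (OO S) (fun i j h => ⇑(oe S st i j h)) where
  map_self := fun i x => by
    change (tr S st i i le_rfl).e x = x
    rw [tr_self]; rfl
  map_map := fun k j i hij hjk x => by
    change (tr S st j k hjk).e ((tr S st i j hij).e x) = (tr S st i k (hij.trans hjk)).e x
    rw [← tr_trans S st i j k hij hjk]; rfl

abbrev LG : Type := DirectLimit (GG S) (gf S st)
abbrev LO : Type := DirectLimit (OO S) (oe S st)

noncomputable instance smulL : SMul (LG S st) (LO S st) where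
  smul := DirectLimit.map₂ (gf S st) (oe S st) (oe S st) (fun i g x => g • x)
    (fun i j h g x => (tr S st i j h).he g x)

theorem smul_def (i : ℕ) (g : GG S i) (x : OO S i) :
    ((⟦⟨i, g⟩⟧ : LG S st) • (⟦⟨i, x⟩⟧ : LO S st)) = (⟦⟨i, g • x⟩⟧ : LO S st) :=
  DirectLimit.map₂_def _ _ _ _ _ i g x

noncomputable instance actL : MulAction (LG S st) (LO S st) where
  one_smul := by
    refine DirectLimit.induction _ ?_
    intro i x
    rw [DirectLimit.one_def i, smul_def, one_smul]
  mul_smul := by
    intro g h x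
    obtain ⟨i, a, b, c, rfl, rfl, hc⟩ : ∃ (i : ℕ) (a b : GG S i) (c : OO S i),
        g = ⟦⟨i, a⟩⟧ ∧ h = ⟦⟨i, b⟩⟧ ∧ x = ⟦⟨i, c⟩⟧ := by
      obtain ⟨i, a, b, rfl, rfl⟩ := DirectLimit.exists_eq_mk₂ _ g h
      obtain ⟨j, c, rfl⟩ := DirectLimit.exists_eq_mk _ x
      refine ⟨max i j, gf S st _ _ (le_max_left i j) a, gf S st _ _ (le_max_left i j) b,
        oe S st _ _ (le_max_right i j) c, ?_, ?_, ?_⟩
      · exact DirectLimit.eq_of_le ⟨i, a⟩ _ (le_max_left i j)
      · exact DirectLimit.eq_of_le ⟨i, b⟩ _ (le_max_left i j)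
      · exact DirectLimit.eq_of_le ⟨j, c⟩ _ (le_max_right i j)
    subst hc
    rw [DirectLimit.mul_def, smul_def, smul_def, smul_def, mul_smul]

end

end Pool.Agent.TD
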